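import Mathlib
import Pool.Agent.W247.OF

/-! # MP_1bff7a_co, Q1: `Ex(M,n) = o(n^c)` for every `c > 1` -/

set_option autoImplicit false

namespace Pool.Agent.Results.MP_1bff7a_co.AlmostLinear

open Filter Asymptotics SimpleGraph

/-- The 0-1 matrix `A` contains the 0-1 matrix `P`: there are increasing choices of rows and of
columns such that `A` has a `1` wherever `P` has a `1`. -/
def Contains {n k l : ℕ} (A : Matrix (Fin n) (Fin n) (Fin 2)) (P : Matrix (Fin k) (Fin l) (Fin 2)) :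
    Prop :=
  ∃ r : Fin k → Fin n, StrictMono r ∧ ∃ c : Fin l → Fin n, StrictMono c ∧
    ∀ i j, P i j = 1 → A (r i) (c j) = 1

/-- the number of `1` entries -/
def ones {n : ℕ} (A : Matrix (Fin n) (Fin n) (Fin 2)) : ℕ :=
  (Finset.univ.filter fun p : Fin n × Fin n => A p.1 p.2 = 1).card

/-- `Ex(P,n)`: the largest number of `1` entries of an `n × n` 0-1 matrix avoiding `P` -/
noncomputable def Ex {k l : ℕ} (P : Matrix (Fin k) (Fin l) (Fin 2)) (n : ℕ) : ℕ :=
  sSup {m : ℕ | ∃ A : Matrix (Fin n) (Fin n) (Fin 2), ¬ Contains A P ∧ ones A = m}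

/-- the pattern of the problem -/
def M : Matrix (Fin 4) (Fin 4) (Fin 2) :=
  !![1, 0, 1, 0;
     0, 1, 0, 1;
     0, 0, 1, 0;
     1, 0, 0, 1]

/-- the positions of the `1` entries of `M` -/
def F : Finset (Fin 4 × Fin 4) := {(0,0),(0,2),(1,1),(1,3),(2,2),(3,0),(3,3)}

theorem mem_F : ∀ p : Fin 4 × Fin 4, p ∈ F ↔ M p.1 p.2 = 1 := by
  unfold M F
  decide

/-- the row-column graph of `M` -/
def G : SimpleGraph (Fin 4 ⊕ Fin 4) := SimpleGraph.fromRel (fun x y : Fin 4 ⊕ Fin 4 =>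
          ∃ i j, x = Sum.inl i ∧ y = Sum.inr j ∧ (i, j) ∈ F)

instance : DecidableRel G.Adj := fun a b => by
  unfold G; simp only [SimpleGraph.fromRel_adj]; infer_instance

theorem acyc : G.IsAcyclic := by
  have hc : G.Connected := by
    rw [connected_iff_exists_forall_reachable]
    refine ⟨Sum.inr 1, ?_⟩
    have e1 : G.Adj (Sum.inr 1) (Sum.inl 1) := by decide
    have e2 : G.Adj (Sum.inl 1) (Sum.inr 3) := by decide
    have e3 : G.Adj (Sum.inr 3) (Sum.inl 3) := by decide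
    have e4 : G.Adj (Sum.inl 3) (Sum.inr 0) := by decide
    have e5 : G.Adj (Sum.inr 0) (Sum.inl 0) := by decide
    have e6 : G.Adj (Sum.inl 0) (Sum.inr 2) := by decide
    have e7 : G.Adj (Sum.inr 2) (Sum.inl 2) := by decide
    have r1 := e1.reachable
    have r2 := r1.trans e2.reachable
    have r3 := r2.trans e3.reachable
    have r4 := r3.trans e4.reachable
    have r5 := r4.trans e5.reachable
    have r6 := r5.trans e6.reachable
    have r7 := r6.trans e7.reachable
    rintro (i | i) <;> fin_cases i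
    · exact r5
    · exact r1
    · exact r7
    · exact r3
    · exact r4
    · exact Reachable.refl _
    · exact r6
    · exact r2
  have ht : G.IsTree := by
    rw [isTree_iff_connected_and_card]
    refine ⟨hc, ?_⟩
    have h1 : Nat.card G.edgeSet = G.edgeFinset.card := by
      rw [Nat.card_eq_fintype_card, ← SimpleGraph.edgeFinset_card]
    rw [h1, Nat.card_eq_fintype_card]
    decide
  exact ht.isAcyclic

theorem bound (c : ℝ) (hc : 1 < c) (ε : ℝ) (hε : 0 < ε) :
    ∃ N : ℕ, ∀ n : ℕ, N ≤ n → (Ex M n : ℝ) ≤ ε * (n : ℝ) ^ c := by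
  obtain ⟨N, hN⟩ := Pool.Agent.W247.OF.main 4 4 F acyc c hc ε hε
  refine ⟨N, fun n hn => ?_⟩
  have h0 : (0 : ℝ) ≤ ε * (n : ℝ) ^ c :=
    mul_nonneg hε.le (Real.rpow_nonneg (Nat.cast_nonneg n) _)
  have h1 : Ex M n ≤ ⌊ε * (n : ℝ) ^ c⌋₊ := by
    apply csSup_le'
    rintro m ⟨A, hA, rfl⟩
    refine Nat.le_floor (hN n hn _ ?_)
    rintro ⟨f, hf, g, hg, h⟩
    refine hA ⟨f, hf, g, hg, fun i j hij => ?_⟩
    have := h (i, j) ((mem_F (i, j)).2 hij)
    simpa using this
  exact (Nat.cast_le.2 h1).trans (Nat.floor_le h0)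

/-- **Affirmative answer to Q1.** `Ex(M,n) = o(n^c)` for every real `c > 1`. -/
theorem result (c : ℝ) (hc : 1 < c) :
    (fun n : ℕ => (Ex M n : ℝ)) =o[atTop] (fun n : ℕ => (n : ℝ) ^ c) := by
  rw [isLittleO_iff]
  intro ε hε
  obtain ⟨N, hN⟩ := bound c hc ε hε
  filter_upwards [eventually_ge_atTop N] with n hn
  rw [Real.norm_of_nonneg (Nat.cast_nonneg _),
    Real.norm_of_nonneg (Real.rpow_nonneg (Nat.cast_nonneg n) _)]
  exact hN n hn

end Pool.Agent.Results.MP_1bff7a_co.AlmostLinear
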